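import Pool.Agent.H838.CFIsoInd

/-!
# Orlov's conjecture: isomorphisms of Chow motives do not depend on the coefficients

By Orlov's conjecture derived equivalent varieties have isomorphic Chow motives with rational
coefficients. The theorem compares isomorphisms of Chow motives with coefficients in a field `F` of
characteristic zero with isomorphisms with rational coefficients, for arbitrary varieties `X` and `Y`
of the same dimension (`MotIso (ChF F C) X Y` and `MotIso C X Y`).

* If the Chow motives of `X` and `Y` with coefficients in `F` are isomorphic, then they are
  isomorphic with coefficients in a number field `E`, and then the sums of `[E : ℚ]` copies of the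
  Chow motives with rational coefficients are isomorphic.
* If the Chow motives are isomorphic with coefficients in number fields whose degrees form the set
  `D`, then the sums of `m` copies with rational coefficients are isomorphic for all large multiples
  `m` of the greatest common divisor of `D`.
* If every finitely generated subalgebra of `F` has a rational point, an isomorphism with
  coefficients in `F` gives an isomorphism with rational coefficients.
* If a Weil cohomology is conservative on the endomorphisms of the Chow motive of `X`, then an
  isomorphism with coefficients in any `F` gives an isomorphism with rational coefficients.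
* If it is conservative on the endomorphisms of the Chow motives of `X` and `Y`, then the Chow motives
  are isomorphic as soon as some combination of the maps induced by correspondences of degree zero,
  with coefficients in some extension of the coefficient field of the cohomology, is bijective.
-/

set_option autoImplicit false

open CategoryTheory AlgebraicGeometry

universe u v w t s

namespace Pool.Agent.Results.MP_5c0b30_ag.CoefficientIndependence

open Pool.Agent.H914 Pool.Agent.H914.VarClass Pool.Agent.H914.VarClass.Obj Pool.Agent.W492.BB
  Pool.Agent.TH133 Pool.Agent.H838.CF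

/-- Isomorphisms of Chow motives do not depend on the coefficients. -/
theorem result {k : Type u} [Field k] {𝒱 : VarClass k} {C : TheoryData.{u, v, 0} 𝒱 ℚ}
    [IsChowProj C] {X Y : 𝒱.Obj} (hd : X.dim = Y.dim) :
    (∀ (F : Type t) [Field F] [Algebra ℚ F], MotIso (ChF F C) X Y →
      ∃ n, 0 < n ∧ NumberFieldIso.{u, v, t} C n X Y ∧ SumIso C n X Y) ∧
    (∀ D : Set ℕ, (∀ n ∈ D, NumberFieldIso.{u, v, t} C n X Y) →
      ∃ N, ∀ m ≥ N, Nat.setGcd D ∣ m → SumIso C m X Y) ∧
    (∀ (F : Type t) [Field F] [Algebra ℚ F], RationalPoints F → MotIso (ChF F C) X Y →
      MotIso C X Y) ∧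
    (∀ (K : Type w) [Field K] (H : WeilTheoryData.{u, v, w} C K) [IsWeilProj H]
      [Module.Finite K (H.A X)] [Module.Finite K (H.A Y)], Conserv H X →
        (∀ (F : Type t) [Field F] [Algebra ℚ F], MotIso (ChF F C) X Y → MotIso C X Y) ∧
        (Conserv H Y → ∀ (L : Type s) [Field L] [Algebra K L], CombBij H L X Y →
          MotIso C X Y)) := by
  refine ⟨fun F _ _ h => ?_, fun D h => ?_, fun F _ _ hF h => ?_, fun K _ H _ _ _ hX => ⟨fun F _ _ h =>
    motIso_of_F H hX h, fun hY L _ _ h => motIso_of_comb H hd hX hY h⟩⟩
  · obtain ⟨R, hR, hE⟩ := motIso_model h
    obtain ⟨E, iE, aE, fE, ⟨f⟩⟩ := exists_point R hR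
    exact ⟨Module.finrank ℚ E, Module.finrank_pos, ⟨E, iE, aE, fE, rfl, hE E f⟩,
      sumIso_of_motIso rfl (hE E f)⟩
  · refine sumIso_gcd D hd fun n hn => ?_
    obtain ⟨E, iE, aE, fE, h1, h2⟩ := h n hn
    exact sumIso_of_motIso h1 h2
  · obtain ⟨R, hR, hE⟩ := motIso_model h
    obtain ⟨f⟩ := hF R hR
    exact SumIso.one (sumIso_of_motIso (Module.finrank_self ℚ) (hE ℚ f))

end Pool.Agent.Results.MP_5c0b30_ag.CoefficientIndependence
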